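import Pool.Agent.Mg.Xd20a68.G8277ee

set_option autoImplicit false

namespace Pool.Agent.Results.MP_d20a68_co.DenseTight

open Pool.Agent.MP_d20a68_co.T

/-- Edge `k`-colourable graphs with at most `C * k` vertices are edge λ-choosable for all
partitions λ of `k` into parts of size at most `√k`, when `k` is large in terms of `C`. -/
theorem result :
    ∀ C : ℕ, ∃ K : ℕ, ∀ k : ℕ, K ≤ k →
      ∀ (V : Type) [Fintype V] (G : SimpleGraph V), Fintype.card V ≤ C * k →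
        (∃ f : G.edgeSet → Fin k, ∀ e₁ e₂ : G.edgeSet, e₁ ≠ e₂ →
            (∃ v : V, v ∈ e₁.1 ∧ v ∈ e₂.1) → f e₁ ≠ f e₂) →
        ∀ (q : ℕ) (p : Fin q → ℕ), (∀ i, p i ^ 2 ≤ k) → (∑ i, p i) = k →
          ∀ (c : ℕ → Fin q) (L : G.edgeSet → Finset ℕ),
            (∀ e i, p i ≤ ((L e).filter (fun x => c x = i)).card) →
            ∃ f : G.edgeSet → ℕ, (∀ e, f e ∈ L e) ∧
              ∀ e₁ e₂ : G.edgeSet, e₁ ≠ e₂ →
                (∃ v : V, v ∈ e₁.1 ∧ v ∈ e₂.1) → f e₁ ≠ f e₂ :=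
  denseOf mainAll regS finS

end Pool.Agent.Results.MP_d20a68_co.DenseTight
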