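import Pool.Agent.Mg.Fd20a68.Gf90942
import Pool.Agent.Mg.Fd20a68.G2e769b

set_option autoImplicit false

namespace Pool.Agent.Results.MP_d20a68_co.PolylogSlack

open Pool.Agent.MP_d20a68_co Pool.Agent.MP_d20a68_co.Poly

/-- Every graph of maximum degree at most `Δ` is edge λ-choosable for all partitions λ with parts
at most `s` of any `k ≥ Δ + C * (s + (log₂ Δ + 1) ^ 5)`. -/
theorem result :
    ∃ C : ℕ, ∀ (Δ s k : ℕ), Δ + C * (s + (Nat.log 2 Δ + 1) ^ 5) ≤ k →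
      ∀ (V : Type) [Fintype V] (G : SimpleGraph V), (∀ v : V, (G.neighborSet v).ncard ≤ Δ) →
        ∀ (q : ℕ) (p : Fin q → ℕ), (∀ i, p i ≤ s) → (∑ i, p i) = k →
          ∀ (cl : ℕ → Fin q) (L : G.edgeSet → Finset ℕ),
            (∀ e i, p i ≤ ((L e).filter (fun x => cl x = i)).card) →
            ∃ f : G.edgeSet → ℕ, (∀ e, f e ∈ L e) ∧
              ∀ e₁ e₂ : G.edgeSet, e₁ ≠ e₂ →
                (∃ v : V, v ∈ e₁.1 ∧ v ∈ e₂.1) → f e₁ ≠ f e₂ := by
  obtain ⟨C, h⟩ := polyOf (halfReg (sparse cluster sel) pair (sign cluster mcd lip meanS) finger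
    hsId factor)
  refine ⟨C, fun Δ s k hk V _ G hΔ q p hp hsum cl L hL => ?_⟩
  refine of_colL G cl L _ (h V G Δ s (fun v => le_trans (le_of_eq ?_) (hΔ v)) q p hp
    (hsum ▸ hk) cl L hL)
  rw [dg, ← Set.ncard_coe_finset]
  congr 1
  ext w
  simp

end Pool.Agent.Results.MP_d20a68_co.PolylogSlack
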