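import Pool.Agent.MP_d20a68_co.Mad.Main

set_option autoImplicit false

namespace Pool.Agent.Results.MP_d20a68_co.SparseTight

open Pool.Agent.MP_d20a68_co Pool.Agent.MP_d20a68_co.Mad

/-- Every graph of maximum degree at most `k` and maximum average degree at most `k - f`, where
`f ^ 2 ≥ C * k * (log₂ k + 1) ^ 3`, is edge λ-choosable for all partitions λ of `k` with parts at
most `k / (C * (log₂ k + 1))`. -/
theorem result :
    ∃ C : ℕ, ∀ (k f : ℕ), C * k * (Nat.log 2 k + 1) ^ 3 ≤ f ^ 2 →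
      ∀ (V : Type) [Fintype V] (G : SimpleGraph V), (∀ v : V, (G.neighborSet v).ncard ≤ k) →
        (∀ A : Finset V,
          2 * {e : Sym2 V | e ∈ G.edgeSet ∧ ∀ v ∈ e, v ∈ A}.ncard + f * A.card ≤ k * A.card) →
        ∀ (q : ℕ) (p : Fin q → ℕ), (∀ i, C * (Nat.log 2 k + 1) * p i ≤ k) → (∑ i, p i) = k →
          ∀ (cl : ℕ → Fin q) (L : G.edgeSet → Finset ℕ),
            (∀ e i, p i ≤ ((L e).filter (fun x => cl x = i)).card) →
            ∃ φ : G.edgeSet → ℕ, (∀ e, φ e ∈ L e) ∧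
              ∀ e₁ e₂ : G.edgeSet, e₁ ≠ e₂ →
                (∃ v : V, v ∈ e₁.1 ∧ v ∈ e₂.1) → φ e₁ ≠ φ e₂ := by
  refine ⟨10 ^ 7, fun k f hf V _ G hΔ hm q p hp hsum cl L hL => ?_⟩
  refine of_colL G cl L _ (main k f hf G (fun v => le_trans (le_of_eq ?_) (hΔ v)) hm p hp hsum cl L
    hL)
  rw [dg, ← Set.ncard_coe_finset]
  congr 1
  ext w
  simp

end Pool.Agent.Results.MP_d20a68_co.SparseTight
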