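import Pool.Agent.Mg.Fd20a68.Gf90942
import Pool.Agent.Mg.Fd20a68.Ga54f30
import Pool.Agent.Mg.Fd20a68.G51eb96

set_option autoImplicit false

namespace Pool.Agent.Results.MP_d20a68_co.SpectralGap

open Pool.Agent.MP_d20a68_co Pool.Agent.MP_d20a68_co.Poly

open scoped Classical in
/-- Regular graphs of even order with a two-sided spectral gap are edge λ-choosable for all
partitions λ of the degree into parts that are not too large. -/
theorem result :
    ∃ C : ℕ, ∀ (k s : ℕ) (lam : ℝ), 0 ≤ lam → lam ≤ k →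
      C * (k : ℝ) ^ 5 * (Nat.log 2 k + 1) ^ 4 ≤ (k - lam) ^ 6 →
      C * (k : ℝ) * (Nat.log 2 k + 1) * s ≤ (k - lam) ^ 2 →
      ∀ (V : Type) [Fintype V] (G : SimpleGraph V),
        (∀ v : V, (G.neighborSet v).ncard = k) → Even (Fintype.card V) →
        (∀ x : V → ℝ, ∑ v, x v = 0 →
          |∑ u, ∑ v, if G.Adj u v then x u * x v else 0| ≤ lam * ∑ v, x v ^ 2) →
        ∀ (q : ℕ) (p : Fin q → ℕ), (∀ i, p i ≤ s) → (∑ i, p i) = k →
          ∀ (cl : ℕ → Fin q) (L : G.edgeSet → Finset ℕ),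
            (∀ e i, p i ≤ ((L e).filter (fun x => cl x = i)).card) →
            ∃ f : G.edgeSet → ℕ, (∀ e, f e ∈ L e) ∧
              ∀ e₁ e₂ : G.edgeSet, e₁ ≠ e₂ →
                (∃ v : V, v ∈ e₁.1 ∧ v ∈ e₂.1) → f e₁ ≠ f e₂ := by
  obtain ⟨C, h⟩ := xOf (oracle (split cluster (est mcd)) (inh thrS)) (phase fill ext) (last fill) ext
  refine ⟨C, fun k s lam h0 h1 h2 h3 V _ G hreg hev hq q p hp hsum cl L hL => ?_⟩
  have hdg : ∀ v, dg G v = k := fun v => by
    rw [← hreg v, dg, ← Set.ncard_coe_finset]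
    congr 1
    ext w
    simp
  have triv : (∀ u v, ¬ G.Adj u v) → ∃ f : G.edgeSet → ℕ, (∀ e, f e ∈ L e) ∧
      ∀ e₁ e₂ : G.edgeSet, e₁ ≠ e₂ → (∃ v : V, v ∈ e₁.1 ∧ v ∈ e₂.1) → f e₁ ≠ f e₂ := fun hn => by
    have : ∀ e : G.edgeSet, False := by
      rintro ⟨e, he⟩
      induction e using Sym2.ind with
      | h u v => exact hn u v he
    exact ⟨fun _ => 0, fun e => (this e).elim, fun e => (this e).elim⟩
  rcases isEmpty_or_nonempty V with hV | hV
  · exact triv fun u => hV.elim u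
  rcases Nat.eq_zero_or_pos k with rfl | hk
  · exact triv fun u v huv => Finset.notMem_empty v
      (Finset.card_eq_zero.1 (hdg u) ▸ mem_nb.2 huv)
  exact of_colL G cl L _ (h V G k s (k - lam) hk hdg hev (spec V G k lam hdg h0 h1 hq)
    (by linarith) (by linarith) h2 h3 q p hp hsum _ (sys_colL G p cl L hL))

end Pool.Agent.Results.MP_d20a68_co.SpectralGap
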